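import Pool.Agent.Helper82.FU.Main

/-!
# Project FU (MP_d97caa_an): composition series

The fibrewise UCT for algebras with a composition series (indexed by a well-ordered set) whose
subquotients are `C(X)`-algebras over countable-dimensional spaces.
-/

set_option autoImplicit false

open TopologicalSpace Set

namespace Pool.Agent.Helper34.FU

open Pool.Agent.Helper39.CarDefs Pool.Agent.Helper93.FU

variable {𝒩 : Cls} {T : Biv}

/-- Increasing unions. -/
theorem zero_union (hT : IsBiv 𝒩 T) {A B : Type} {D : ℕ → Type} [NonUnitalCStarAlgebra A]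
    [NonUnitalCStarAlgebra B] [∀ k, NonUnitalCStarAlgebra (D k)] (hA : 𝒩 A) (hD : ∀ k, 𝒩 (D k))
    (j : ∀ k, Hom (D k) (D (k + 1))) (u : ∀ k, Hom (D k) A) (hu : IsUnion j u)
    (hZ : ∀ k, T.Zero (D k) B) : T.Zero A B := by
  intro i g
  obtain ⟨-, d, -, h2⟩ := hT.milnorA i A B D hA hD j u hu
  obtain ⟨z, rfl⟩ := (h2 g).1 fun k => hZ k i _
  have h3 : z = 0 := funext fun k => hZ k (i + 1) _
  rw [h3, map_zero]

/-- Lifting through an injective homomorphism. -/
theorem lift_inj {D D' A : Type} [NonUnitalCStarAlgebra D] [NonUnitalCStarAlgebra D']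
    [NonUnitalCStarAlgebra A] (f : Hom D A) (g : Hom D' A) (hg : Function.Injective g)
    (h : ∀ d, f d ∈ Set.range g) : ∃ j : Hom D D', ∀ d, g (j d) = f d := by
  choose s hs using h
  refine ⟨{ toFun := s
            map_smul' := fun c d => hg ?_
            map_zero' := hg ?_
            map_add' := fun a b => hg ?_
            map_mul' := fun a b => hg ?_
            map_star' := fun a => hg ?_ }, hs⟩
  · change g (s (c • d)) = g (c • s d)
    rw [hs, map_smul, map_smul, hs]
  · rw [hs, map_zero, map_zero]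
  · change g (s (a + b)) = g (s a + s b)
    rw [hs, map_add, map_add, hs, hs]
  · change g (s (a * b)) = g (s a * s b)
    rw [hs, map_mul, map_mul, hs, hs]
  · change g (s (star a)) = g (star (s a))
    rw [hs, map_star, map_star, hs]

/-- Totally ordered families of ideals. -/
theorem uct_union (hT : IsBiv 𝒩 T) {A C I : Type} [LinearOrder I] [NonUnitalCStarAlgebra A]
    [NonUnitalCStarAlgebra C] {D : I → Type} [∀ i, NonUnitalCStarAlgebra (D i)] (hC : 𝒩 C)
    (hN : ∀ i, 𝒩 (D i)) (hU : ∀ i, T.Uct (D i)) (u : ∀ i, Hom (D i) A)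
    (hu : ∀ i, Function.Injective (u i)) (hm : ∀ i j, i ≤ j → range (u i) ⊆ range (u j))
    (v : Hom C A) (hv : Function.Injective v) (h1 : ∀ i, range (u i) ⊆ range v)
    (h2 : range v ⊆ closure ({0} ∪ ⋃ i, range (u i))) : T.Uct C := by
  rcases isEmpty_or_nonempty I with hI | hI
  · have h3 : ∀ c : C, c = 0 := by
      intro c
      have h4 := h2 ⟨c, rfl⟩
      rw [iUnion_of_empty, union_empty, closure_singleton, mem_singleton_iff] at h4
      exact hv (by rw [h4, map_zero])
    haveI : Subsingleton C := ⟨fun a b => by rw [h3 a, h3 b]⟩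
    exact Pool.Agent.Helper82.FU.uct_subsingleton hT hC
  obtain ⟨i₀⟩ := hI
  have h3 : ({0} ∪ ⋃ i, range (u i) : Set A) = ⋃ i, range (u i) := by
    apply union_eq_self_of_subset_left
    rintro _ rfl
    exact mem_iUnion.2 ⟨i₀, 0, map_zero _⟩
  rw [h3] at h2
  haveI := hT.cls.sep C hC
  haveI : Nonempty C := ⟨0⟩
  obtain ⟨c, hc⟩ := exists_dense_seq C
  have h4 : ∀ n m : ℕ, ∃ i, ∃ d : D i, ‖v (c n) - u i d‖ < 1 / ((m : ℝ) + 1) := by
    intro n m
    have h5 := Metric.mem_closure_iff.1 (h2 ⟨c n, rfl⟩) (1 / ((m : ℝ) + 1)) (by positivity)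
    obtain ⟨b, hb, hd⟩ := h5
    obtain ⟨i, d, rfl⟩ := mem_iUnion.1 hb
    exact ⟨i, d, by rwa [dist_eq_norm] at hd⟩
  choose ix dx hdx using h4
  let γ : ℕ → I := fun k => ix k.unpair.1 k.unpair.2
  let δ : ℕ → I := fun k => Nat.rec (motive := fun _ => I) (γ 0) (fun k x => max x (γ (k + 1))) k
  have hδ1 : ∀ k, δ (k + 1) = max (δ k) (γ (k + 1)) := fun k => rfl
  have hδ2 : ∀ k, δ k ≤ δ (k + 1) := fun k => by rw [hδ1]; exact le_max_left _ _
  have hδ3 : ∀ k, γ k ≤ δ k := by
    intro k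
    cases k with
    | zero => exact le_rfl
    | succ k => rw [hδ1]; exact le_max_right _ _
  have h6 : ∀ k, ∃ j : Hom (D (δ k)) (D (δ (k + 1))), ∀ d, u (δ (k + 1)) (j d) = u (δ k) d :=
    fun k => lift_inj _ _ (hu _) fun d => hm _ _ (hδ2 k) ⟨d, rfl⟩
  choose j hj using h6
  have h7 : ∀ k, ∃ w : Hom (D (δ k)) C, ∀ d, v (w d) = u (δ k) d :=
    fun k => lift_inj _ _ hv fun d => h1 _ ⟨d, rfl⟩
  choose w hw using h7
  have hun : IsUnion (A := C) (B := fun k => D (δ k)) j w := by
    refine ⟨fun k => ⟨?_, ?_⟩, ?_⟩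
    · intro a b hab
      apply hu (δ k)
      rw [← hw, ← hw, hab]
    · intro d
      apply hv
      rw [hw, hw, hj]
    · rw [Metric.dense_iff]
      intro x r hr
      obtain ⟨n, hn⟩ := Metric.denseRange_iff.1 hc x (r / 2) (by positivity)
      obtain ⟨m, hm'⟩ := exists_nat_one_div_lt (show 0 < r / 2 by positivity)
      have e1 : γ (Nat.pair n m) = ix n m := by
        change ix (Nat.pair n m).unpair.1 (Nat.pair n m).unpair.2 = ix n m
        rw [Nat.unpair_pair]
      obtain ⟨d', hd'⟩ : u (ix n m) (dx n m) ∈ range (u (δ (Nat.pair n m))) :=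
        hm _ _ (by rw [← e1]; exact hδ3 _) ⟨_, rfl⟩
      refine ⟨w (Nat.pair n m) d', ?_, mem_iUnion.2 ⟨Nat.pair n m, d', rfl⟩⟩
      have e2 : ‖c n - w (Nat.pair n m) d'‖ < r / 2 := by
        rw [← NonUnitalStarAlgHom.norm_map v hv, map_sub, hw, hd']
        exact (hdx n m).trans hm'
      rw [Metric.mem_ball, dist_comm]
      calc dist x (w (Nat.pair n m) d') ≤ dist x (c n) + dist (c n) (w (Nat.pair n m) d') :=
            dist_triangle _ _ _
        _ < r / 2 + r / 2 := by
            rw [dist_eq_norm (c n)]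
            exact add_lt_add hn e2
        _ = r := by ring
  exact fun B _ hB hK => zero_union hT hC (fun k => hN (δ k)) j w hun
    fun k => hU (δ k) B hB hK

/-- The inclusion of a closed ideal. -/
def IsIdealHom {D A : Type} [NonUnitalCStarAlgebra D] [NonUnitalCStarAlgebra A]
    (u : Hom D A) : Prop :=
  ∃ (Q : Type) (_ : NonUnitalCStarAlgebra Q) (q : Hom A Q), IsExtension u q

/-- A `C(X)`-algebra over a countable-dimensional compact metrizable space whose fibres satisfy the
UCT. -/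
def Fibrewise (T : Biv) (A : Type) [NonUnitalCStarAlgebra A] : Prop :=
  ∃ (X : Type) (_ : TopologicalSpace X) (_ : CompactSpace X) (_ : T2Space X)
    (_ : SecondCountableTopology X) (c : CXAlg X A), CountableDim X ∧
    ∀ x, ∃ (F : Type) (_ : NonUnitalCStarAlgebra F) (π : Hom A F), c.IsFibre x π ∧ T.Uct F

/-- A composition series of `A`. -/
def HasSeries (T : Biv) (A : Type) [NonUnitalCStarAlgebra A] : Prop :=
  ∃ (I : Type) (_ : LinearOrder I) (_ : WellFoundedLT I) (D : I → Type)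
    (_ : ∀ α, NonUnitalCStarAlgebra (D α)) (u : ∀ α, Hom (D α) A),
    (∀ α, IsIdealHom (u α)) ∧ (∀ α β, α ≤ β → range (u α) ⊆ range (u β)) ∧
    Dense (⋃ α, range (u α)) ∧
    ∀ α, ∃ (Q : Type) (_ : NonUnitalCStarAlgebra Q) (q : Hom (D α) Q),
      Function.Surjective q ∧
      (∀ d, q d = 0 ↔ u α d ∈ closure ({0} ∪ ⋃ β : {β // β < α}, range (u β))) ∧ Fibrewise T Q

/-- The theorem for one `C(X)`-algebra. -/
theorem uct_fibrewise (hT : IsBiv 𝒩 T) {A : Type} [NonUnitalCStarAlgebra A] (hA : 𝒩 A)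
    (h : Fibrewise T A) : T.Uct A := by
  obtain ⟨X, _, _, _, _, c, hX, hF⟩ := h
  choose F hF1 π hπ using hF
  exact Pool.Agent.Helper82.FU.main 𝒩 T hT X A hA c hX F π (fun x => (hπ x).1)
    fun x => (hπ x).2

/-- **Composition series.** -/
theorem series (hT : IsBiv 𝒩 T) {A : Type} [NonUnitalCStarAlgebra A] (hA : 𝒩 A)
    (h : HasSeries T A) : T.Uct A := by
  obtain ⟨I, _, _, D, _, u, hi, hm, hd, hq⟩ := h
  have hN : ∀ α, 𝒩 (D α) := by
    intro α
    obtain ⟨Q, _, q, he⟩ := hi α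
    exact hT.cls.ideal _ _ _ _ _ he hA
  have hu : ∀ α, Function.Injective (u α) := by
    intro α
    obtain ⟨Q, _, q, he⟩ := hi α
    exact he.1
  have hU : ∀ α, T.Uct (D α) := by
    intro α
    induction α using WellFoundedLT.induction with
    | ind α ih =>
      obtain ⟨Q, _, q, hq1, hq2, hq3⟩ := hq α
      have e := Pool.Agent.Helper82.FU.isExt_ker q hq1
      have hK : 𝒩 _ := hT.cls.ideal _ _ _ _ _ e (hN α)
      have hQ : 𝒩 Q := hT.cls.quot _ _ _ _ _ e (hN α)
      have h1 : T.Uct _ := uct_union (I := {β // β < α}) (D := fun β => D β.1) hT hK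
        (fun β => hN β.1) (fun β => ih β.1 β.2) (fun β => u β.1) (fun β => hu β.1)
        (fun β γ h => hm _ _ h) ((u α).comp (Pool.Agent.Helper82.FU.kerInc q))
        (fun a b h => e.1 (hu α h)) (fun β => ?_) ?_
      · intro B _ hB hZ
        exact Pool.Agent.Helper82.FU.zero_ext hT (hN α) _ _ e (h1 B hB hZ)
          (uct_fibrewise hT hQ hq3 B hB hZ)
      · rintro _ ⟨d, rfl⟩
        obtain ⟨d', hd'⟩ := hm _ _ β.2.le ⟨d, rfl⟩
        have h2 : q d' = 0 := by
          rw [hq2, hd']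
          exact subset_closure (Or.inr (mem_iUnion.2 ⟨β, d, rfl⟩))
        obtain ⟨x, hx⟩ := (e.2.2 d').1 h2
        exact ⟨x, by rw [← hd', ← hx]; rfl⟩
      · rintro _ ⟨x, rfl⟩
        have h2 : q _ = 0 := (e.2.2 _).2 ⟨x, rfl⟩
        exact (hq2 _).1 h2
  refine uct_union hT hA hN hU u hu hm (NonUnitalStarAlgHom.id ℂ A) (fun a b h => h)
    (fun i => ?_) ?_
  · rintro _ ⟨d, rfl⟩
    exact ⟨_, rfl⟩
  · rintro a -
    exact closure_mono subset_union_right (hd a)

/-- One `C(X)`-algebra is a series of length one. -/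
theorem hasSeries_one {A : Type} [NonUnitalCStarAlgebra A] (h : Fibrewise T A) :
    HasSeries T A := by
  refine ⟨Unit, inferInstance, inferInstance, fun _ => A, fun _ => inferInstance,
    fun _ => NonUnitalStarAlgHom.id ℂ A, fun _ => ?_, fun _ _ _ => subset_rfl, ?_, fun α =>
    ⟨A, inferInstance, NonUnitalStarAlgHom.id ℂ A, fun a => ⟨a, rfl⟩, fun d => ?_, h⟩⟩
  · refine ⟨_, inferInstance, Pool.Agent.Helper82.FU.botProj A A,
      fun a b h => h, fun b => ⟨0, Subsingleton.elim _ _⟩, fun a => ⟨fun _ => ⟨a, rfl⟩,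
        fun _ => rfl⟩⟩
  · intro a
    exact subset_closure (mem_iUnion.2 ⟨(), a, rfl⟩)
  · have e : (⋃ β : {β : Unit // β < α}, range (NonUnitalStarAlgHom.id ℂ A)) = ∅ := by
      rw [iUnion_eq_empty]
      rintro ⟨β, hβ⟩
      exact absurd hβ (lt_irrefl _)
    rw [e, union_empty, closure_singleton, mem_singleton_iff]

end Pool.Agent.Helper34.FU
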